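import Pool.Agent.TH977.Cyc.Small

/-!
# Symmetric convolution walks on cycles: product condition without cutoff, with sparse supports

For every `β > 0` and along every sequence `n_k → ∞` there are symmetric step laws on `ℤ/n_k`
supported on at most `n_k ^ β` points whose walks satisfy the product condition and have no
cutoff.
-/

open Finset Filter Topology

namespace Pool.Agent.Results.MP_7e070a_pr.SparseNoCutoff

noncomputable section

/-- The law `μ^{*t}` of the convolution walk on `ℤ/n` at time `t`, started from `0`. -/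
def law {n : ℕ} [NeZero n] (μ : ZMod n → ℝ) : ℕ → ZMod n → ℝ
  | 0 => fun x => if x = 0 then 1 else 0
  | t + 1 => fun x => ∑ y, law μ t y * μ (x - y)

/-- Total variation distance `‖μ^{*t} - U‖_TV` to the uniform distribution `U`. -/
def dist {n : ℕ} [NeZero n] (μ : ZMod n → ℝ) (t : ℕ) : ℝ :=
  (1 / 2) * ∑ x, |law μ t x - 1 / (n : ℝ)|

/-- The mixing time `T_mix(ε) = min {t : ‖μ^{*t} - U‖_TV ≤ ε}`. -/
def tmix {n : ℕ} [NeZero n] (μ : ZMod n → ℝ) (ε : ℝ) : ℕ := sInf {t : ℕ | dist μ t ≤ ε}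

/-- The eigenvalue `∑ x, μ(x) cos(2 π j x / n)`. -/
def eig {n : ℕ} [NeZero n] (μ : ZMod n → ℝ) (j : ZMod n) : ℝ :=
  ∑ x, μ x * Real.cos (2 * Real.pi * (j.val * x.val) / n)

/-- The relaxation time `1 / (1 - λ_*)`, `λ_* = max_{j ≠ 0} |eig j|`. -/
def trel {n : ℕ} [NeZero n] (μ : ZMod n → ℝ) : ℝ :=
  1 / (1 - ⨆ j : {j : ZMod n // j ≠ 0}, |eig μ j|)

/-- `μ` is a symmetric probability measure on `ℤ/n` whose convolution walk is irreducible and
aperiodic, i.e. at some time every state has positive probability. -/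
structure IsWalk {n : ℕ} [NeZero n] (μ : ZMod n → ℝ) : Prop where
  nonneg : ∀ x, 0 ≤ μ x
  sum_one : ∑ x, μ x = 1
  symm : ∀ x, μ (-x) = μ x
  irreducible_aperiodic : ∃ t, ∀ x, 0 < law μ t x

/-- The product condition `T_mix(1/4) / T_rel → ∞`. -/
def ProductCondition (n : ℕ → ℕ) [∀ k, NeZero (n k)] (μ : ∀ k, ZMod (n k) → ℝ) : Prop :=
  Tendsto (fun k => (tmix (μ k) (1 / 4) : ℝ) / trel (μ k)) atTop atTop

/-- Total variation cutoff: `T_mix(ε) / T_mix(1-ε) → 1` for every fixed `ε ∈ (0,1/2)`. -/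
def HasCutoff (n : ℕ → ℕ) [∀ k, NeZero (n k)] (μ : ∀ k, ZMod (n k) → ℝ) : Prop :=
  ∀ ε : ℝ, 0 < ε → ε < 1 / 2 →
    Tendsto (fun k => (tmix (μ k) ε : ℝ) / (tmix (μ k) (1 - ε) : ℝ)) atTop (𝓝 1)

open Pool.Agent.TH977

section one

variable {n : ℕ} [NeZero n]

theorem law_eq (μ : ZMod n → ℝ) (t : ℕ) : law μ t = Cyc.cpow μ t := by
  induction t with
  | zero => rfl
  | succ t ih => rw [law, ih]; rfl

theorem dist_eq (μ : ZMod n → ℝ) (t : ℕ) : dist μ t = Cyc.tv (Cyc.cpow μ t) := by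
  rw [dist, law_eq, Cyc.tv]

theorem eig_eq (μ : ZMod n → ℝ) (j : ZMod n) : eig μ j = (Cyc.F μ j).re := by
  unfold eig Cyc.F
  rw [Complex.re_sum]
  refine Finset.sum_congr rfl fun x _ => ?_
  rw [Complex.re_ofReal_mul]
  congr 1
  have h := ZMod.stdAddChar_coe (N := n) ((j.val * x.val : ℕ) : ℤ)
  have h2 : (((j.val * x.val : ℕ) : ℤ) : ZMod n) = j * x := by
    push_cast
    rw [ZMod.natCast_zmod_val, ZMod.natCast_zmod_val]
  rw [h2] at h
  rw [h]
  have h3 : (2 * Real.pi * Complex.I * (((j.val * x.val : ℕ) : ℤ) : ℂ) / (n : ℂ)) =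
      ((2 * Real.pi * (j.val * x.val) / n : ℝ) : ℂ) * Complex.I := by
    push_cast
    ring
  rw [h3, Complex.exp_ofReal_mul_I_re]

theorem abs_eig_le {μ : ZMod n → ℝ} {j : ZMod n} {c : ℝ} (h : ‖Cyc.F μ j‖ ≤ c) :
    |eig μ j| ≤ c := by
  rw [eig_eq]
  exact (Complex.abs_re_le_norm _).trans h

theorem trel_bounds {μ : ZMod n → ℝ} (h : ∀ j, j ≠ 0 → ‖Cyc.F μ j‖ ≤ 1 / 2) :
    0 < trel μ ∧ trel μ ≤ 2 := by
  have h1 : ⨆ j : {j : ZMod n // j ≠ 0}, |eig μ j| ≤ 1 / 2 :=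
    Real.iSup_le (fun j => abs_eig_le (h j j.2)) (by norm_num)
  unfold trel
  constructor
  · exact one_div_pos.mpr (by linarith)
  · rw [div_le_iff₀ (by linarith)]
    linarith

theorem walk_of {μ : ZMod n → ℝ} (h0 : ∀ x, 0 ≤ μ x) (h1 : ∑ x, μ x = 1)
    (hs : ∀ x, μ (-x) = μ x) (hF : ∀ j, j ≠ 0 → ‖Cyc.F μ j‖ ≤ 1 / 2) : IsWalk μ := by
  refine ⟨h0, h1, hs, ?_⟩
  have hnp := Cyc.npos (n := n)
  obtain ⟨t, ht⟩ := Cyc.exists_tv_le (by norm_num) (by norm_num) h1 hF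
    (show (0 : ℝ) < 1 / (4 * (n : ℝ)) by positivity)
  refine ⟨t, fun x => ?_⟩
  rw [law_eq]
  refine lt_of_le_of_ne (Cyc.cpow_nonneg h0 t x) (Ne.symm (Cyc.cpow_ne_zero_of_tv
    (ht.trans_lt ?_) x))
  rw [div_lt_div_iff₀ (by positivity) (by positivity)]
  linarith

end one

/-- **Product condition without cutoff for sparse symmetric convolution walks on every sequence
of cycles.**  For every `β > 0` and every sequence `n_k → ∞` there are symmetric step laws `μ_k` on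
`ℤ/n_k`, with irreducible and aperiodic walks, supported on at most `n_k ^ β` points (for `k`
large), with relaxation times at most `2`, such that the product condition `T_mix/T_rel → ∞`
holds but there is no total variation cutoff; quantitatively
`T_mix(0.35) ≥ (1 + δ) T_mix(0.65)` for all large `k` for some `δ > 0` depending on `β` only. -/
theorem result (β : ℝ) (hβ : 0 < β) :
    ∃ δ : ℝ, 0 < δ ∧ ∀ (n : ℕ → ℕ) [∀ k, NeZero (n k)], Tendsto n atTop atTop →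
      ∃ μ : ∀ k, ZMod (n k) → ℝ, (∀ k, IsWalk (μ k)) ∧
        (∀ᶠ k in atTop, ((univ.filter fun x => μ k x ≠ 0).card : ℝ) ≤ (n k : ℝ) ^ β) ∧
        (∀ k, trel (μ k) ≤ 2) ∧ ProductCondition n μ ∧
        (∀ᶠ k in atTop, (1 + δ) * (tmix (μ k) 0.65 : ℝ) ≤ tmix (μ k) 0.35) ∧
        ¬ HasCutoff n μ := by
  classical
  set γ : ℝ := min (β / 2) 1 with hγ
  have hγ0 : 0 < γ := lt_min (by positivity) one_pos
  have hγ1 : γ ≤ 1 := min_le_right _ _
  have hγβ : 2 * γ ≤ β := by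
    have := min_le_left (β / 2) 1
    linarith
  refine ⟨γ / 8, by positivity, fun n _ hn => ?_⟩
  -- the property of the step laws
  let P : ∀ m : ℕ, [NeZero m] → (ZMod m → ℝ) → Prop := fun m _ μ =>
    (∀ x, 0 ≤ μ x) ∧ (∑ x, μ x = 1) ∧ (∀ x, μ (-x) = μ x) ∧
      (∃ S : Finset (ZMod m), (S.card : ℝ) ≤ (m : ℝ) ^ (2 * γ) ∧ ∀ x, x ∉ S → μ x = 0) ∧
      (∀ j, j ≠ 0 → ‖Cyc.F μ j‖ ≤ 1 / 2) ∧
      Cyc.tv (Cyc.cpow μ (Cyc.t1 γ m)) ≤ 0.65 ∧ 0.35 < Cyc.tv (Cyc.cpow μ (Cyc.t2 γ m))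
  have hev : ∀ᶠ k in atTop, ∃ μ : ZMod (n k) → ℝ, P (n k) μ := by
    filter_upwards [hn.eventually (Cyc.one γ hγ0 hγ1)] with k hk
    exact hk
  let μ : ∀ k, ZMod (n k) → ℝ := fun k =>
    if h : ∃ μ : ZMod (n k) → ℝ, P (n k) μ then Classical.choose h else Cyc.unif (n k)
  have hμ : ∀ᶠ k in atTop, P (n k) (μ k) := by
    filter_upwards [hev] with k hk
    have e : μ k = Classical.choose hk := dif_pos hk
    rw [e]
    exact Classical.choose_spec hk
  have hbasic : ∀ k, (∀ x, 0 ≤ μ k x) ∧ (∑ x, μ k x = 1) ∧ (∀ x, μ k (-x) = μ k x) ∧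
      (∀ j, j ≠ 0 → ‖Cyc.F (μ k) j‖ ≤ 1 / 2) := by
    intro k
    by_cases h : ∃ μ : ZMod (n k) → ℝ, P (n k) μ
    · have e : μ k = Classical.choose h := dif_pos h
      have hs := Classical.choose_spec h
      rw [← e] at hs
      exact ⟨hs.1, hs.2.1, hs.2.2.1, hs.2.2.2.2.1⟩
    · have e : μ k = Cyc.unif (n k) := dif_neg h
      rw [e]
      have := Cyc.npos (n := n k)
      refine ⟨fun x => ?_, Cyc.sum_unif, fun x => rfl, fun j hj => ?_⟩
      · unfold Cyc.unif; positivity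
      · rw [Cyc.F_unif j hj, norm_zero]; norm_num
  have hwalk : ∀ k, IsWalk (μ k) := fun k =>
    walk_of (hbasic k).1 (hbasic k).2.1 (hbasic k).2.2.1 (hbasic k).2.2.2
  have htrel : ∀ k, 0 < trel (μ k) ∧ trel (μ k) ≤ 2 := fun k => trel_bounds (hbasic k).2.2.2
  have hanti : ∀ k, Antitone (dist (μ k)) := by
    intro k s t hst
    rw [dist_eq, dist_eq]
    exact Cyc.tv_cpow_anti (hbasic k).1 (hbasic k).2.1 hst
  have hne : ∀ k (ε : ℝ), 0 < ε → {t : ℕ | dist (μ k) t ≤ ε}.Nonempty := by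
    intro k ε hε
    obtain ⟨t, ht⟩ := Cyc.exists_tv_le (by norm_num) (by norm_num) (hbasic k).2.1
      (hbasic k).2.2.2 hε
    exact ⟨t, by change dist _ _ ≤ _; rw [dist_eq]; exact ht⟩
  -- mixing times
  have hup : ∀ᶠ k in atTop, tmix (μ k) 0.65 ≤ Cyc.t1 γ (n k) := by
    filter_upwards [hμ] with k hk
    refine Nat.sInf_le ?_
    change dist _ _ ≤ _
    rw [dist_eq]
    exact hk.2.2.2.2.2.1
  have hlow : ∀ᶠ k in atTop, ∀ ε : ℝ, 0 < ε → ε ≤ 0.35 → Cyc.t2 γ (n k) < tmix (μ k) ε := by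
    filter_upwards [hμ] with k hk ε hε0 hε
    by_contra hcon
    push Not at hcon
    have h1 : dist (μ k) (tmix (μ k) ε) ≤ ε := Nat.sInf_mem (hne k ε hε0)
    have h2 := hanti k hcon
    have h3 := hk.2.2.2.2.2.2
    rw [← dist_eq] at h3
    linarith
  have hLL : Tendsto (fun k => (Cyc.LL (n k) : ℝ)) atTop atTop :=
    tendsto_natCast_atTop_atTop.comp (Cyc.LL_tendsto.comp hn)
  have ht2 : ∀ k, (1 - γ / 4) * (Cyc.LL (n k) : ℝ) ≤ (Cyc.t2 γ (n k) : ℝ) + 1 := fun k =>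
    (Nat.lt_floor_add_one _).le
  have ht1 : ∀ k, (Cyc.t1 γ (n k) : ℝ) ≤ (1 - γ / 2) * (Cyc.LL (n k) : ℝ) + 2 := by
    intro k
    have h1 := (Nat.ceil_lt_add_one (show 0 ≤ (1 - γ / 2) * (Cyc.LL (n k) : ℝ) by
      exact mul_nonneg (by linarith) (Nat.cast_nonneg _))).le
    unfold Cyc.t1
    push_cast
    linarith
  have hratio : ∀ᶠ k in atTop, (1 + γ / 8) * (tmix (μ k) 0.65 : ℝ) ≤ tmix (μ k) 0.35 := by
    filter_upwards [hup, hlow, hLL.eventually_ge_atTop (32 / γ)] with k h1 h2 h3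
    have h4 := h2 0.35 (by norm_num) le_rfl
    have h5 : (tmix (μ k) 0.65 : ℝ) ≤ Cyc.t1 γ (n k) := by exact_mod_cast h1
    have h6 : (Cyc.t2 γ (n k) : ℝ) + 1 ≤ tmix (μ k) 0.35 := by exact_mod_cast h4
    have h7 : 32 ≤ γ * (Cyc.LL (n k) : ℝ) := by
      rw [div_le_iff₀ hγ0] at h3; linarith
    have h8 := ht1 k
    have h9 := ht2 k
    set ℓ := (Cyc.LL (n k) : ℝ)
    calc (1 + γ / 8) * (tmix (μ k) 0.65 : ℝ) ≤ (1 + γ / 8) * ((1 - γ / 2) * ℓ + 2) :=
          mul_le_mul_of_nonneg_left (h5.trans h8) (by linarith)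
      _ ≤ (1 - γ / 4) * ℓ := by nlinarith
      _ ≤ _ := h9.trans h6
  refine ⟨μ, hwalk, ?_, fun k => (htrel k).2, ?_, hratio, ?_⟩
  · -- support
    filter_upwards [hμ, hn.eventually_ge_atTop 1] with k hk hk1
    obtain ⟨S, hS, hS2⟩ := hk.2.2.2.1
    have h1 : (univ.filter fun x => μ k x ≠ 0).card ≤ S.card := by
      apply Finset.card_le_card
      intro x hx
      by_contra hcon
      exact (Finset.mem_filter.mp hx).2 (hS2 x hcon)
    have h2 : ((univ.filter fun x => μ k x ≠ 0).card : ℝ) ≤ S.card := by exact_mod_cast h1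
    refine h2.trans (hS.trans ?_)
    exact Real.rpow_le_rpow_of_exponent_le (by exact_mod_cast hk1) hγβ
  · -- product condition
    have h1 : Tendsto (fun k => (1 - γ / 4) / 2 * (Cyc.LL (n k) : ℝ) + (-1 / 2)) atTop atTop :=
      tendsto_atTop_add_const_right _ _ (hLL.const_mul_atTop (by linarith))
    refine tendsto_atTop_mono' _ ?_ h1
    filter_upwards [hlow] with k hk
    have h2 := hk (1 / 4) (by norm_num) (by norm_num)
    have h3 : (Cyc.t2 γ (n k) : ℝ) ≤ tmix (μ k) (1 / 4) := by exact_mod_cast h2.le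
    obtain ⟨h4, h5⟩ := htrel k
    have h6 := ht2 k
    rw [le_div_iff₀ h4]
    have h7 : (0 : ℝ) ≤ tmix (μ k) (1 / 4) := Nat.cast_nonneg _
    rcases le_or_gt ((1 - γ / 4) / 2 * (Cyc.LL (n k) : ℝ) + (-1 / 2)) 0 with h8 | h8
    · exact (mul_nonpos_of_nonpos_of_nonneg h8 h4.le).trans h7
    · calc ((1 - γ / 4) / 2 * (Cyc.LL (n k) : ℝ) + (-1 / 2)) * trel (μ k)
          ≤ ((1 - γ / 4) / 2 * (Cyc.LL (n k) : ℝ) + (-1 / 2)) * 2 :=
            mul_le_mul_of_nonneg_left h5 h8.le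
        _ ≤ _ := by linarith
  · intro hcut
    have h1 := hcut 0.35 (by norm_num) (by norm_num)
    have e : (1 : ℝ) - 0.35 = 0.65 := by norm_num
    rw [e] at h1
    have h2 : ∀ᶠ k in atTop, (1 : ℝ) + γ / 8 ≤
        (tmix (μ k) 0.35 : ℝ) / (tmix (μ k) 0.65 : ℝ) := by
      have h3 := h1.eventually (lt_mem_nhds (show (1 / 2 : ℝ) < 1 by norm_num))
      filter_upwards [hratio, h3] with k h4 h5
      have h6 : (0 : ℝ) < tmix (μ k) 0.65 := by
        rcases (Nat.cast_nonneg (α := ℝ) (tmix (μ k) 0.65)).eq_or_lt with h7 | h7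
        · rw [← h7, div_zero] at h5
          norm_num at h5
        · exact h7
      rw [le_div_iff₀ h6]
      exact h4
    have h3 := ge_of_tendsto h1 h2
    linarith

end

end Pool.Agent.Results.MP_7e070a_pr.SparseNoCutoff
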